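import Pool.Agent.H20.LIM.Targets

/-!
# Module SM: sub-mean value property of `log ‖h‖` for discs (MP_52e316_nt)
-/

set_option autoImplicit false

open Complex MeasureTheory Set Filter Topology Metric

namespace Pool.Agent.H84.LIM

open Pool.Agent.H20.LIM Pool.Agent.H23.GLM Pool.Agent.H23.DZ

/-- `log ‖z - ζ‖` is integrable on discs -/
theorem logint (ζ c : ℂ) (r : ℝ) :
    IntegrableOn (fun z : ℂ => Real.log ‖z - ζ‖) (closedBall c r) := by
  set R : ℝ := ‖c - ζ‖ + |r| + 1 with hR
  have h1 : IntegrableOn (fun x : ℂ => Real.log ‖x‖) (ball (0 : ℂ) R) := by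
    rw [integrableOn_fun_norm_addHaar volume (E := ℂ) (f := Real.log)]
    have h2 : IntegrableOn (fun y : ℝ => y * Real.log y) (Ioo 0 R) :=
      ((Real.continuous_mul_log.integrableOn_Icc (a := 0) (b := R))).mono_set Ioo_subset_Icc_self
    refine h2.congr_fun ?_ measurableSet_Ioo
    intro y _
    simp [Complex.finrank_real_complex]
  have h2 : Integrable ((ball (0 : ℂ) R).indicator fun x : ℂ => Real.log ‖x‖) :=
    (integrable_indicator_iff measurableSet_ball).2 h1
  have h3 := h2.comp_sub_right ζ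
  refine (h3.integrableOn (s := closedBall c r)).congr_fun ?_ measurableSet_closedBall
  intro z hz
  have h4 : z - ζ ∈ ball (0 : ℂ) R := by
    rw [mem_ball_zero_iff, hR]
    rw [mem_closedBall, dist_eq_norm] at hz
    calc ‖z - ζ‖ = ‖(z - c) + (c - ζ)‖ := by congr 1; ring
      _ ≤ ‖z - c‖ + ‖c - ζ‖ := norm_add_le _ _
      _ < ‖c - ζ‖ + |r| + 1 := by linarith [le_abs_self r]
  simp only [indicator_of_mem h4]

theorem int_id (r L : ℝ) : ∫ ρ in (0 : ℝ)..r, ρ * L = r ^ 2 / 2 * L := by
  rw [intervalIntegral.integral_mul_const, integral_id]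
  ring

/-- averages of the logarithm -/
theorem avlog (hPOL : T_POL) (ζ c : ℂ) (r : ℝ) (hr : 0 < r) (hne : c ≠ ζ) :
    Real.log ‖c - ζ‖ ≤ av r (fun z => Real.log ‖z - ζ‖) c := by
  rw [hPOL _ c r hr ((logint ζ c r).mono_set ball_subset_closedBall)]
  have hD : 0 < ‖c - ζ‖ := norm_pos_iff.2 (sub_ne_zero.2 hne)
  have hval : ∀ ρ : ℝ, 0 < ρ → ρ * Real.circleAverage (fun z => Real.log ‖z - ζ‖) c ρ =
      max (ρ * Real.log ρ) (ρ * Real.log ‖c - ζ‖) := by
    intro ρ hρ
    rw [circleAverage_log_norm_sub_const_eq_log_radius_add_posLog hρ.ne',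
      ← mul_max_of_nonneg _ _ hρ.le]
    congr 1
    rw [Real.posLog, Real.log_mul (by positivity) hD.ne', Real.log_inv]
    rcases le_total (-Real.log ρ + Real.log ‖c - ζ‖) 0 with h | h
    · rw [max_eq_left h, max_eq_left (by linarith)]; ring
    · rw [max_eq_right h, max_eq_right (by linarith)]; ring
  have hcont : Continuous fun ρ : ℝ => max (ρ * Real.log ρ) (ρ * Real.log ‖c - ζ‖) :=
    Real.continuous_mul_log.max (continuous_id.mul continuous_const)
  have hint : ∫ ρ in (0 : ℝ)..r, ρ * Real.circleAverage (fun z => Real.log ‖z - ζ‖) c ρ =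
      ∫ ρ in (0 : ℝ)..r, max (ρ * Real.log ρ) (ρ * Real.log ‖c - ζ‖) := by
    apply intervalIntegral.integral_congr_ae
    refine Filter.Eventually.of_forall fun ρ hρ => ?_
    rw [uIoc_of_le hr.le] at hρ
    exact hval ρ hρ.1
  rw [hint]
  have hmono : ∫ ρ in (0 : ℝ)..r, ρ * Real.log ‖c - ζ‖ ≤
      ∫ ρ in (0 : ℝ)..r, max (ρ * Real.log ρ) (ρ * Real.log ‖c - ζ‖) :=
    intervalIntegral.integral_mono_on hr.le
      ((continuous_id.mul continuous_const).intervalIntegrable _ _)
      (hcont.intervalIntegrable _ _) fun ρ _ => le_max_right _ _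
  rw [int_id] at hmono
  calc Real.log ‖c - ζ‖ = 2 / r ^ 2 * (r ^ 2 / 2 * Real.log ‖c - ζ‖) := by field_simp
    _ ≤ _ := mul_le_mul_of_nonneg_left hmono (by positivity)

theorem kint {k : ℂ → ℂ} {c : ℂ} {r : ℝ} (hk : AnalyticOnNhd ℂ k (closedBall c r))
    (h0 : ∀ z ∈ closedBall c r, k z ≠ 0) :
    IntegrableOn (fun z => Real.log ‖k z‖) (closedBall c r) := by
  apply ContinuousOn.integrableOn_compact (isCompact_closedBall c r)
  exact hk.continuousOn.norm.log fun z hz => (norm_ne_zero_iff.2 (h0 z hz))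

theorem avk (hPOL : T_POL) {k : ℂ → ℂ} {c : ℂ} {r : ℝ} (hr : 0 < r)
    (hk : AnalyticOnNhd ℂ k (closedBall c r)) (h0 : ∀ z ∈ closedBall c r, k z ≠ 0) :
    av r (fun z => Real.log ‖k z‖) c = Real.log ‖k c‖ := by
  rw [hPOL _ c r hr ((kint hk h0).mono_set ball_subset_closedBall)]
  have hint : ∫ ρ in (0 : ℝ)..r, ρ * Real.circleAverage (fun z => Real.log ‖k z‖) c ρ =
      ∫ ρ in (0 : ℝ)..r, ρ * Real.log ‖k c‖ := by
    apply intervalIntegral.integral_congr_ae
    refine Filter.Eventually.of_forall fun ρ hρ => ?_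
    rw [uIoc_of_le hr.le] at hρ
    have hsub : closedBall c |ρ| ⊆ closedBall c r := by
      rw [abs_of_pos hρ.1]
      exact closedBall_subset_closedBall hρ.2
    show ρ * Real.circleAverage (fun z => Real.log ‖k z‖) c ρ = ρ * Real.log ‖k c‖
    rw [AnalyticOnNhd.circleAverage_log_norm_of_ne_zero (hk.mono hsub)
      fun u hu => h0 u (hsub hu)]
  rw [hint, int_id]
  field_simp

theorem sm (hPOL : T_POL) (hZF : T_ZF) : T_SM := by
  classical
  intro h c r hr hh hc
  -- a larger disc
  obtain ⟨δ, hδ, hδU⟩ := (isCompact_closedBall c r).exists_cthickening_subset_open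
    (isOpen_analyticAt ℂ h) hh
  have hr1 : AnalyticOnNhd ℂ h (closedBall c (r + δ)) := by
    intro z hz
    apply hδU
    rw [cthickening_closedBall hδ.le hr.le, add_comm]
    exact hz
  obtain ⟨M, hM⟩ := (isCompact_closedBall c (r + δ)).exists_bound_of_continuousOn
    hr1.continuousOn
  set B : ℝ := max 0 (max (Real.log (max M 1)) (-Real.log ‖h c‖)) with hB
  have hB0 : 0 ≤ B := le_max_left _ _
  have hB1 : ∀ z ∈ closedBall c (r + δ), ‖h z‖ ≤ Real.exp B := by
    intro z hz
    have h1 : 0 < max M 1 := lt_of_lt_of_le one_pos (le_max_right _ _)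
    calc ‖h z‖ ≤ max M 1 := (hM z hz).trans (le_max_left _ _)
      _ = Real.exp (Real.log (max M 1)) := (Real.exp_log h1).symm
      _ ≤ Real.exp B := Real.exp_le_exp.2 ((le_max_left _ _).trans (le_max_right _ _))
  have hB2 : Real.exp (-B) ≤ ‖h c‖ := by
    have h1 : 0 < ‖h c‖ := norm_pos_iff.2 hc
    calc Real.exp (-B) ≤ Real.exp (Real.log ‖h c‖) := by
          apply Real.exp_le_exp.2
          have : -Real.log ‖h c‖ ≤ B := (le_max_right _ _).trans (le_max_right _ _)
          linarith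
      _ = ‖h c‖ := Real.exp_log h1
  obtain ⟨n, ζ, k, -, hζ, hk, hk0, hfac⟩ := hZF c r (r + δ) B h hr (by linarith) hB0 hr1 hB1 hB2
  have hsub : closedBall c r ⊆ closedBall c (r + δ) := closedBall_subset_closedBall (by linarith)
  have hk' : AnalyticOnNhd ℂ k (closedBall c r) := hk.mono hsub
  have hlog : ∀ z ∈ closedBall c r, (∀ j, z ≠ ζ j) →
      Real.log ‖h z‖ = (∑ j, Real.log ‖z - ζ j‖) + Real.log ‖k z‖ := by
    intro z hz hzj
    rw [hfac z (hsub hz), norm_mul, norm_prod,
      Real.log_mul (Finset.prod_ne_zero_iff.2 fun j _ => norm_ne_zero_iff.2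
        (sub_ne_zero.2 (hzj j))) (norm_ne_zero_iff.2 (hk0 z hz)),
      Real.log_prod (fun j _ => norm_ne_zero_iff.2 (sub_ne_zero.2 (hzj j)))]
  have hcj : ∀ j, c ≠ ζ j := by
    intro j hj
    apply hc
    rw [hfac c (mem_closedBall_self (by linarith)), Finset.prod_eq_zero (Finset.mem_univ j)
      (by rw [← hj, sub_self]), zero_mul]
  have hae : ∀ᵐ z : ℂ, ∀ j, z ≠ ζ j := by
    rw [ae_all_iff]
    intro j
    exact compl_mem_ae_iff.2 (measure_singleton (ζ j))
  have hae1 : (fun z => Real.log ‖h z‖) =ᵐ[volume.restrict (closedBall c r)]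
      fun z => (∑ j, Real.log ‖z - ζ j‖) + Real.log ‖k z‖ := by
    filter_upwards [ae_restrict_of_ae hae, ae_restrict_mem measurableSet_closedBall] with z h1 h2
    exact hlog z h2 h1
  have hsumint : IntegrableOn (fun z => ∑ j, Real.log ‖z - ζ j‖) (closedBall c r) :=
    integrable_finsetSum _ fun j _ => logint (ζ j) c r
  have hI : IntegrableOn (fun z => Real.log ‖h z‖) (closedBall c r) :=
    (hsumint.add (kint hk' hk0)).congr hae1.symm
  refine ⟨hI, ?_⟩
  have hae2 : (fun z => Real.log ‖h z‖) =ᵐ[volume.restrict (ball c r)]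
      fun z => (∑ j, Real.log ‖z - ζ j‖) + Real.log ‖k z‖ :=
    ae_restrict_of_ae_restrict_of_subset ball_subset_closedBall hae1
  have hav : av r (fun z => Real.log ‖h z‖) c =
      (∑ j, av r (fun z => Real.log ‖z - ζ j‖) c) + av r (fun z => Real.log ‖k z‖) c := by
    unfold av
    rw [setAverage_eq, setAverage_eq, integral_congr_ae hae2,
      integral_add (hsumint.mono_set ball_subset_closedBall)
        ((kint hk' hk0).mono_set ball_subset_closedBall),
      integral_finsetSum _ fun j _ => (logint (ζ j) c r).mono_set ball_subset_closedBall,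
      smul_add, Finset.smul_sum]
    congr 1
    refine Finset.sum_congr rfl fun j _ => ?_
    rw [setAverage_eq]
  rw [hav, hlog c (mem_closedBall_self hr.le) hcj, avk hPOL hr hk' hk0]
  gcongr with j _
  exact avlog hPOL (ζ j) c r hr (hcj j)

end Pool.Agent.H84.LIM
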